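import Mathlib

/-!
# The recursion for the number of large values: definitions
-/

set_option autoImplicit false

namespace Pool.Agent.Lib.MP_570bef_ntLM

/-- admissible triple: number of blocks `n`, number of blocks `m` in the step, level `l` -/
def Adm (k : ℕ) (κ : ℝ) (n m : ℕ) (l : ℝ) : Prop :=
  ((k : ℝ) + 2) * m + 4 * l + κ ≤ 2 * ((n : ℝ) - m) ∨
  ∃ ρ : ℝ, 3 / 2 ≤ ρ ∧ 1000 * ρ ^ 4 ≤ k ∧ (k : ℝ) * m ≤ ρ * ((n : ℝ) - m) ∧
    (l + κ) * ρ ^ 4 ≤ (1 / 10 ^ 8) * ((n : ℝ) - m)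

/-- the step inequality -/
def Step (k M : ℕ) (κ P : ℝ) (ν : ℕ → ℝ → ℝ) : Prop :=
  ∀ (n m : ℕ) (l : ℝ), n ≤ M → 1 ≤ m → m < n → 0 ≤ l → Adm k κ n m l →
    ∃ (j : ℕ) (i : ℝ), j ≤ m ∧ 0 ≤ i ∧ i ≤ l - j + κ ∧
      ν n l ≤ P ^ (κ + ((k : ℝ) + 1) * j + (l - j - i) + 4 * (l - j)) * ν (n - m) i

/-- effective level -/
noncomputable def xe (k : ℕ) (n : ℕ) (l : ℝ) : ℝ := max l ((n : ℝ) / (500 * k))

/-- the slope `8 / 3 + 28 / (3 k)` -/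
noncomputable def cc (k : ℕ) : ℝ := 8 / 3 + 28 / (3 * k)

/-- the constant `8 + 12 / k` -/
noncomputable def aa (k : ℕ) : ℝ := 8 + 12 / k

/-- first potential -/
noncomputable def GG (a c N x : ℝ) : ℝ := x * (a + c * max 0 (Real.log (N / (8 * x))))

/-- second potential -/
noncomputable def HH (a b s N x : ℝ) : ℝ := x * (a - b * (x / (s * N)) ^ (1 / 4 : ℝ))

end Pool.Agent.Lib.MP_570bef_ntLM
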