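import Mathlib
import Pool.Agent.Lib.MP_570bef_ntLM.Defs

/-!
# The two potentials: monotonicity and decrements
-/

set_option autoImplicit false

namespace Pool.Agent.Lib.MP_570bef_ntLM

theorem GG_mono {a c N x y : ℝ} (hc : 0 ≤ c) (hca : c ≤ a) (hN : 0 < N) (hx : 0 < x)
    (hxy : x ≤ y) : GG a c N x ≤ GG a c N y := by
  have hy : 0 < y := lt_of_lt_of_le hx hxy
  have h1 : Real.log (N / (8 * x)) = Real.log (N / (8 * y)) + Real.log (y / x) := by
    rw [← Real.log_mul (by positivity) (by positivity)]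
    congr 1
    field_simp
  have h2 : Real.log (y / x) ≤ y / x - 1 := Real.log_le_sub_one_of_pos (by positivity)
  have h3 : 0 ≤ Real.log (y / x) := Real.log_nonneg ((one_le_div hx).2 hxy)
  have h4 : max 0 (Real.log (N / (8 * x))) ≤ max 0 (Real.log (N / (8 * y))) + Real.log (y / x) := by
    refine max_le (add_nonneg (le_max_left _ _) h3) ?_
    rw [h1]
    have := le_max_right 0 (Real.log (N / (8 * y)))
    linarith
  have h5 : 0 ≤ max 0 (Real.log (N / (8 * y))) := le_max_left _ _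
  have h6 : x * Real.log (y / x) ≤ y - x := by
    calc x * Real.log (y / x) ≤ x * (y / x - 1) := mul_le_mul_of_nonneg_left h2 hx.le
      _ = y - x := by field_simp
  unfold GG
  calc x * (a + c * max 0 (Real.log (N / (8 * x))))
      ≤ x * (a + c * (max 0 (Real.log (N / (8 * y))) + Real.log (y / x))) := by
        gcongr
    _ = x * a + c * (x * Real.log (y / x)) + c * (x * max 0 (Real.log (N / (8 * y)))) := by ring
    _ ≤ x * a + a * (y - x) + c * (y * max 0 (Real.log (N / (8 * y)))) := by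
        have h7 : c * (x * Real.log (y / x)) ≤ c * (y - x) := mul_le_mul_of_nonneg_left h6 hc
        have h8 : c * (y - x) ≤ a * (y - x) := mul_le_mul_of_nonneg_right hca (by linarith)
        have h9 : c * (x * max 0 (Real.log (N / (8 * y)))) ≤
            c * (y * max 0 (Real.log (N / (8 * y)))) :=
          mul_le_mul_of_nonneg_left (mul_le_mul_of_nonneg_right hxy h5) hc
        linarith
    _ = y * (a + c * max 0 (Real.log (N / (8 * y)))) := by ring

/-- adding `κ` to the level -/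
theorem GG_add {a c N x κ s : ℝ} (hc : 0 ≤ c) (hN : 0 < N) (hs : 0 < s) (hs1 : s ≤ 1 / 8)
    (hx : s * N ≤ x) (hκ : 0 ≤ κ) :
    GG a c N (x + κ) ≤ GG a c N x + κ * (a + c * Real.log (1 / (8 * s))) := by
  have hx0 : 0 < x := lt_of_lt_of_le (by positivity) hx
  have h1 : Real.log (N / (8 * (x + κ))) ≤ Real.log (N / (8 * x)) :=
    Real.log_le_log (by positivity) (by gcongr; linarith)
  have h2 : max 0 (Real.log (N / (8 * (x + κ)))) ≤ max 0 (Real.log (N / (8 * x))) :=
    max_le_max le_rfl h1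
  have h3 : max 0 (Real.log (N / (8 * x))) ≤ Real.log (1 / (8 * s)) := by
    refine max_le (Real.log_nonneg ?_) (Real.log_le_log (by positivity) ?_)
    · rw [le_div_iff₀ (by positivity)]
      linarith
    · rw [div_le_div_iff₀ (by positivity) (by positivity)]
      nlinarith
  unfold GG
  have h4 : (x + κ) * (c * max 0 (Real.log (N / (8 * (x + κ))))) ≤
      (x + κ) * (c * max 0 (Real.log (N / (8 * x)))) := by gcongr
  have h5 : κ * (c * max 0 (Real.log (N / (8 * x)))) ≤ κ * (c * Real.log (1 / (8 * s))) := by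
    gcongr
  nlinarith

/-- decrement of the first potential -/
theorem GG_dec {a c n N x : ℝ} (hc : 0 ≤ c) (hN : 0 < N) (hn : N ≤ n) (hx : 0 < x)
    (hxN : 8 * x ≤ N) : GG a c N x + c * x * ((n - N) / n) ≤ GG a c n x := by
  have hn0 : 0 < n := lt_of_lt_of_le hN hn
  have h1 : 0 ≤ Real.log (N / (8 * x)) :=
    Real.log_nonneg ((one_le_div (by positivity)).2 hxN)
  have h2 : 0 ≤ Real.log (n / (8 * x)) :=
    Real.log_nonneg ((one_le_div (by positivity)).2 (hxN.trans hn))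
  have h3 : Real.log (n / (8 * x)) = Real.log (N / (8 * x)) + Real.log (n / N) := by
    rw [← Real.log_mul (by positivity) (by positivity)]
    congr 1
    field_simp
  have h4 : (n - N) / n ≤ Real.log (n / N) := by
    have h5 : Real.log (N / n) ≤ N / n - 1 := Real.log_le_sub_one_of_pos (by positivity)
    have h6 : Real.log (n / N) = - Real.log (N / n) := by
      rw [← Real.log_inv, inv_div]
    rw [h6, sub_div, div_self hn0.ne']
    linarith
  unfold GG
  rw [max_eq_right h1, max_eq_right h2, h3]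
  have h7 : c * x * ((n - N) / n) ≤ c * x * Real.log (n / N) := by gcongr
  nlinarith

theorem root_mono {x y : ℝ} (hx : 0 ≤ x) (hxy : x ≤ y) :
    x ^ (1 / 4 : ℝ) ≤ y ^ (1 / 4 : ℝ) := Real.rpow_le_rpow hx hxy (by norm_num)

theorem root_pow {x : ℝ} (hx : 0 ≤ x) : (x ^ (1 / 4 : ℝ)) ^ 4 = x := by
  rw [← Real.rpow_natCast, ← Real.rpow_mul hx]
  norm_num

theorem root_of_pow {x : ℝ} (hx : 0 ≤ x) : (x ^ 4) ^ (1 / 4 : ℝ) = x := by
  rw [← Real.rpow_natCast, ← Real.rpow_mul hx]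
  norm_num

theorem HH_mono {a b s N x y : ℝ} (hb : 0 ≤ b) (hs : 0 < s) (hN : 0 < N) (hx : 0 < x)
    (hxy : x ≤ y) (hy : y ≤ 2 * s * N) (hab : 3 * b ≤ a) :
    HH a b s N x ≤ HH a b s N y := by
  have hy0 : 0 < y := lt_of_lt_of_le hx hxy
  obtain ⟨u, hu⟩ : ∃ u, u = (x / (s * N)) ^ (1 / 4 : ℝ) := ⟨_, rfl⟩
  obtain ⟨v, hv⟩ : ∃ v, v = (y / (s * N)) ^ (1 / 4 : ℝ) := ⟨_, rfl⟩
  have hu3 : u ^ 4 = x / (s * N) := by rw [hu]; exact root_pow (by positivity)
  have hv3 : v ^ 4 = y / (s * N) := by rw [hv]; exact root_pow (by positivity)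
  have hu0 : 0 ≤ u := by rw [hu]; positivity
  have huv : u ≤ v := by
    rw [hu, hv]
    exact root_mono (by positivity) (by gcongr)
  have hxe : x = s * N * u ^ 4 := by rw [hu3]; field_simp
  have hye : y = s * N * v ^ 4 := by rw [hv3]; field_simp
  have hv2 : v ^ 4 ≤ 2 := by
    rw [hv3, div_le_iff₀ (by positivity)]
    linarith
  have hv4 : v ≤ 3 / 2 := by
    by_contra h
    push Not at h
    have : (3 / 2 : ℝ) ^ 4 < v ^ 4 := pow_lt_pow_left₀ h (by norm_num) (by norm_num)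
    norm_num at this
    linarith
  have hv0 : 0 ≤ v := hu0.trans huv
  unfold HH
  rw [← hu, ← hv, hxe, hye]
  have h1 : 0 ≤ v ^ 4 * (a - b * v) - u ^ 4 * (a - b * u) := by
    have h2 : v ^ 4 * (a - b * v) - u ^ 4 * (a - b * u) =
        a * (v ^ 4 - u ^ 4) - b * (v ^ 5 - u ^ 5) := by ring
    have h3 : v ^ 5 - u ^ 5 ≤ 3 * (v ^ 4 - u ^ 4) := by
      have h4 : 3 * (v ^ 4 - u ^ 4) - (v ^ 5 - u ^ 5) =
          (v - u) * (3 * (v ^ 3 + v ^ 2 * u + v * u ^ 2 + u ^ 3) -
            (v ^ 3 * v + v ^ 2 * u * v + v * u ^ 2 * v + u ^ 3 * v + u ^ 3 * u)) := by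
        ring
      have h5 : 0 ≤ 3 * (v ^ 3 + v ^ 2 * u + v * u ^ 2 + u ^ 3) -
            (v ^ 3 * v + v ^ 2 * u * v + v * u ^ 2 * v + u ^ 3 * v + u ^ 3 * u) := by
        have e0 : 0 ≤ v ^ 3 := by positivity
        have e1 : v ^ 3 * v ≤ v ^ 3 * (3 / 2) := mul_le_mul_of_nonneg_left hv4 (by positivity)
        have e2 : v ^ 2 * u * v ≤ v ^ 2 * u * (3 / 2) :=
          mul_le_mul_of_nonneg_left hv4 (by positivity)
        have e3 : v * u ^ 2 * v ≤ v * u ^ 2 * (3 / 2) :=
          mul_le_mul_of_nonneg_left hv4 (by positivity)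
        have e4 : u ^ 3 * v ≤ u ^ 3 * (3 / 2) := mul_le_mul_of_nonneg_left hv4 (by positivity)
        have e5 : u ^ 3 * u ≤ u ^ 3 * (3 / 2) :=
          mul_le_mul_of_nonneg_left (huv.trans hv4) (by positivity)
        have e6 : 0 ≤ v ^ 2 * u := by positivity
        have e7 : 0 ≤ v * u ^ 2 := by positivity
        linarith
      nlinarith [mul_nonneg (sub_nonneg.2 huv) h5]
    have h6 : 0 ≤ v ^ 4 - u ^ 4 := by
      have := pow_le_pow_left₀ hu0 huv 4
      linarith
    rw [h2]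
    nlinarith [mul_le_mul_of_nonneg_left h3 hb, mul_le_mul_of_nonneg_right hab h6]
  have h7 : 0 < s * N := by positivity
  nlinarith [mul_nonneg h7.le h1]

/-- adding `κ` to the level, second potential -/
theorem HH_add {a b s N x κ : ℝ} (hb : 0 ≤ b) (hs : 0 < s) (hN : 0 < N) (hx : 0 < x)
    (hκ : 0 ≤ κ) : HH a b s N (x + κ) ≤ HH a b s N x + κ * a := by
  have h1 : (x / (s * N)) ^ (1 / 4 : ℝ) ≤ ((x + κ) / (s * N)) ^ (1 / 4 : ℝ) :=
    root_mono (by positivity) (by gcongr; linarith)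
  have h2 : 0 ≤ ((x + κ) / (s * N)) ^ (1 / 4 : ℝ) := by positivity
  unfold HH
  have h3 : x * (b * (x / (s * N)) ^ (1 / 4 : ℝ)) ≤ (x + κ) * (b * ((x + κ) / (s * N)) ^ (1 / 4 : ℝ)) := by
    gcongr
    linarith
  nlinarith

/-- decrement of the second potential -/
theorem HH_dec {a b s n N x : ℝ} (hb : 0 ≤ b) (hs : 0 < s) (hN : 0 < N) (hn : N ≤ n)
    (hx : 0 < x) :
    HH a b s N x + x * b * (x / (s * n)) ^ (1 / 4 : ℝ) * ((n - N) / (4 * n)) ≤ HH a b s n x := by
  have hn0 : 0 < n := lt_of_lt_of_le hN hn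
  have h1 : (x / (s * N)) ^ (1 / 4 : ℝ) = (x / (s * n)) ^ (1 / 4 : ℝ) * (n / N) ^ (1 / 4 : ℝ) := by
    rw [← Real.mul_rpow (by positivity) (by positivity)]
    congr 1
    field_simp
  have h2 : 1 + (n - N) / (4 * n) ≤ (n / N) ^ (1 / 4 : ℝ) := by
    have h3 : (1 + (n - N) / (4 * n)) ^ 4 ≤ n / N := by
      obtain ⟨u, hu⟩ : ∃ u, u = (n - N) / n := ⟨_, rfl⟩
      have hu0 : 0 ≤ u := by rw [hu]; exact div_nonneg (by linarith) hn0.le
      have hu1 : u < 1 := by rw [hu, div_lt_one hn0]; linarith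
      have h4 : (n - N) / (4 * n) = u / 4 := by rw [hu]; field_simp
      have h5 : n / N = 1 / (1 - u) := by
        have h50 : 1 - u = N / n := by
          rw [hu, sub_div, div_self hn0.ne']
          ring
        rw [h50, one_div_div]
      rw [h4, h5, le_div_iff₀ (by linarith)]
      have h6 : (1 + u / 4) ^ 4 * (1 - u) =
          1 - u ^ 2 * (5 / 8 + 5 / 16 * u + 15 / 256 * u ^ 2 + u ^ 3 / 256) := by ring
      rw [h6]
      have : 0 ≤ u ^ 2 * (5 / 8 + 5 / 16 * u + 15 / 256 * u ^ 2 + u ^ 3 / 256) := by positivity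
      linarith
    have h7 : 0 ≤ 1 + (n - N) / (4 * n) := by
      have : 0 ≤ (n - N) / (4 * n) := div_nonneg (by linarith) (by positivity)
      linarith
    calc 1 + (n - N) / (4 * n) = ((1 + (n - N) / (4 * n)) ^ 4) ^ (1 / 4 : ℝ) :=
          (root_of_pow h7).symm
      _ ≤ (n / N) ^ (1 / 4 : ℝ) := root_mono (by positivity) h3
  unfold HH
  rw [h1]
  have h8 : 0 ≤ (x / (s * n)) ^ (1 / 4 : ℝ) := by positivity
  have h9 : 0 ≤ x * b * (x / (s * n)) ^ (1 / 4 : ℝ) := by positivity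
  nlinarith [mul_le_mul_of_nonneg_left h2 h9]

end Pool.Agent.Lib.MP_570bef_ntLM
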