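import Mathlib
import Pool.Agent.Lib.MP_570bef_ntLM.Fun

/-!
# First recursion: steps of relative length `3 / (2 k + 7)`
-/

set_option autoImplicit false

namespace Pool.Agent.Lib.MP_570bef_ntLM

/-- first bound -/
noncomputable def V1 (k M n : ℕ) (ε l : ℝ) : ℝ :=
  k * l + k * GG (aa k) (cc k) n (xe k n l) + ε * n + ε * M

theorem cc_pos (k : ℕ) : 0 < cc k := by unfold cc; positivity

theorem cc_le_aa (k : ℕ) : cc k ≤ aa k := by
  unfold cc aa
  have : (0 : ℝ) ≤ 1 / k := by positivity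
  have h1 : (28 : ℝ) / (3 * k) = 28 / 3 * (1 / k) := by ring
  have h2 : (12 : ℝ) / k = 12 * (1 / k) := by ring
  rw [h1, h2]
  linarith

/-- the exponent computation for the first recursion (real variables) -/
theorem expA {k n N x l j i κ ε K : ℝ} {a c : ℝ} (hk : 3 ≤ k) (hc : 0 ≤ c) (hca : c ≤ a)
    (hcd : k * c * (3 / (2 * k + 7)) = 4) (hN : 0 < N) (hNn : N ≤ n) (hj : 0 ≤ j)
    (hi : i ≤ l - j + κ) (hκ : 0 ≤ κ) (hx : x = max l (n / (500 * k)))
    (hx8 : 8 * x ≤ N) (hm : 3 / (2 * k + 7) * n - 1 ≤ n - N) (hn : 0 < n)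
    (hK : K = (k + 1) * κ + k * c / 8 + k * κ * (a + c * Real.log (1 / (8 * (1 / (500 * k))))))
    (hε : K ≤ ε * (n - N)) :
    κ + (k + 1) * j + (l - j - i) + 4 * (l - j) +
      (k * i + k * GG a c N (max i (N / (500 * k))) + ε * N) ≤
      k * l + k * GG a c n x + ε * n := by
  have hk0 : 0 < k := by linarith
  have hx0 : 0 < x := by
    rw [hx]
    exact lt_of_lt_of_le (by positivity) (le_max_right _ _)
  have hlx : l ≤ x := by rw [hx]; exact le_max_left _ _
  have hnx : n / (500 * k) ≤ x := by rw [hx]; exact le_max_right _ _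
  have hNx : 1 / (500 * k) * N ≤ x := by
    refine le_trans ?_ hnx
    rw [one_div_mul_eq_div]
    gcongr
  have hmax0 : 0 < max i (N / (500 * k)) := lt_of_lt_of_le (by positivity) (le_max_right _ _)
  have h1 : GG a c N (max i (N / (500 * k))) ≤ GG a c N (x + κ) := by
    refine GG_mono hc hca hN hmax0 (max_le ?_ ?_)
    · linarith
    · rw [one_div_mul_eq_div] at hNx
      linarith
  have h2 : GG a c N (x + κ) ≤ GG a c N x + κ * (a + c * Real.log (1 / (8 * (1 / (500 * k))))) := by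
    refine GG_add hc hN (by positivity) ?_ hNx hκ
    rw [div_le_div_iff₀ (by positivity) (by norm_num)]
    linarith
  have h3 := GG_dec (a := a) hc hN hNn hx0 hx8
  have h4 : 3 / (2 * k + 7) - 1 / n ≤ (n - N) / n := by
    rw [le_div_iff₀ hn, sub_mul, one_div_mul_cancel hn.ne']
    exact hm
  have h5 : x / n ≤ 1 / 8 := by
    rw [div_le_div_iff₀ hn (by norm_num)]
    linarith
  have h6 : 4 * x - k * c / 8 ≤ k * (c * x * ((n - N) / n)) := by
    have h7 : k * (c * x * (3 / (2 * k + 7) - 1 / n)) ≤ k * (c * x * ((n - N) / n)) := by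
      gcongr
    have h8 : k * (c * x * (3 / (2 * k + 7) - 1 / n)) =
        (k * c * (3 / (2 * k + 7))) * x - k * c * (x / n) := by ring
    rw [h8, hcd] at h7
    have h9 : k * c * (x / n) ≤ k * c * (1 / 8) := by gcongr
    linarith
  have h10 : k * GG a c N (max i (N / (500 * k))) ≤ k * (GG a c N x +
      κ * (a + c * Real.log (1 / (8 * (1 / (500 * k)))))) :=
    mul_le_mul_of_nonneg_left (h1.trans h2) hk0.le
  have h11 : k * (GG a c N x + c * x * ((n - N) / n)) ≤ k * GG a c n x :=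
    mul_le_mul_of_nonneg_left h3 hk0.le
  have h12 : (k - 1) * i ≤ (k - 1) * (l - j + κ) :=
    mul_le_mul_of_nonneg_left hi (by linarith)
  rw [hK] at hε
  nlinarith

theorem recA (k : ℕ) (hk : 3 ≤ k) {κ ε : ℝ} (hκ : 0 ≤ κ) (hε : 0 < ε) :
    ∃ M0 : ℕ, ∀ M ≥ M0, ∀ P : ℝ, 1 ≤ P → ∀ ν : ℕ → ℝ → ℝ, (∀ n l, 0 ≤ ν n l) →
      (∀ (n : ℕ) (l : ℝ), n ≤ M → ν n l ≤ P ^ ((k : ℝ) * n + κ)) → Step k M κ P ν →
      ∀ n ≤ M, ∀ l : ℝ, 0 ≤ l → ν n l ≤ P ^ V1 k M n ε l := by
  have hk3 : (3 : ℝ) ≤ k := by exact_mod_cast hk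
  have hk0 : (0 : ℝ) < k := by linarith
  have hc := cc_pos k
  have hca := cc_le_aa k
  obtain ⟨K, hK⟩ : ∃ K : ℝ, K = ((k : ℝ) + 1) * κ + k * cc k / 8 +
      k * κ * (aa k + cc k * Real.log (1 / (8 * (1 / (500 * (k : ℝ)))))) := ⟨_, rfl⟩
  have hlog : 0 ≤ Real.log (1 / (8 * (1 / (500 * (k : ℝ))))) := by
    refine Real.log_nonneg ?_
    rw [le_div_iff₀ (by positivity), one_mul, mul_one_div, div_le_one (by positivity)]
    linarith
  have hK0 : 0 ≤ K := by
    rw [hK]
    have := hc.le.trans hca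
    positivity
  obtain ⟨n1, hn1⟩ : ∃ n1 : ℝ, n1 = (2 * κ * (k + 3 / 2) + κ) / ε + (k + 7 / 2) * (2 + K / ε) :=
    ⟨_, rfl⟩
  have hn10 : 0 < n1 := by rw [hn1]; positivity
  refine ⟨⌈((k : ℝ) * n1 + κ) / ε⌉₊, fun M hM P hP ν hν htriv hstep => ?_⟩
  have hM' : (k : ℝ) * n1 + κ ≤ ε * M := by
    have := (Nat.le_ceil (((k : ℝ) * n1 + κ) / ε)).trans (Nat.cast_le.2 hM)
    rw [div_le_iff₀ hε] at this
    linarith
  intro n
  induction n using Nat.strong_induction_on with
  | _ n ih =>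
  intro hnM l hl
  -- value of the potential is nonnegative
  have hxe0 : 0 ≤ xe k n l := le_trans hl (le_max_left _ _)
  have hG0 : 0 ≤ GG (aa k) (cc k) n (xe k n l) := by
    unfold GG
    have : 0 ≤ max 0 (Real.log ((n : ℝ) / (8 * xe k n l))) := le_max_left _ _
    have := hc.le.trans hca
    positivity
  rcases le_or_gt ((k : ℝ) * n + κ) (ε * M) with hsm | hbig
  · refine (htriv n l hnM).trans (Real.rpow_le_rpow_of_exponent_le hP ?_)
    unfold V1
    have h1 : (0 : ℝ) ≤ ε * n := by positivity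
    have h2 : 0 ≤ (k : ℝ) * l := by positivity
    have h3 : 0 ≤ (k : ℝ) * GG (aa k) (cc k) n (xe k n l) := by positivity
    linarith
  have hnn1 : n1 < n := by
    have : (k : ℝ) * n1 < k * n := by linarith
    exact lt_of_mul_lt_mul_left this hk0.le
  have hn0 : (0 : ℝ) < n := hn10.trans hnn1
  obtain ⟨m, hm⟩ : ∃ m : ℕ, m = ⌊3 / (2 * (k : ℝ) + 7) * n⌋₊ := ⟨_, rfl⟩
  have hm1 : (m : ℝ) ≤ 3 / (2 * (k : ℝ) + 7) * n := by rw [hm]; exact Nat.floor_le (by positivity)
  have hm2 : 3 / (2 * (k : ℝ) + 7) * n < m + 1 := by rw [hm]; exact Nat.lt_floor_add_one _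
  have hθ : 3 / (2 * (k : ℝ) + 7) ≤ 1 / 3 := by
    rw [div_le_div_iff₀ (by positivity) (by norm_num)]
    linarith
  have hmn : (m : ℝ) ≤ n / 3 := by nlinarith
  have hml : m < n := by
    have : (m : ℝ) < n := by linarith
    exact_mod_cast this
  have hbigm : 1 + K / ε ≤ (m : ℝ) := by
    have h1 : ((k : ℝ) + 7 / 2) * (2 + K / ε) ≤ n := by
      have : 0 ≤ (2 * κ * (k + 3 / 2) + κ) / ε := by positivity
      linarith
    have h2 : 3 / (2 * (k : ℝ) + 7) * n = (3 / 2) * (n / (k + 7 / 2)) := by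
      field_simp
    have h3 : 2 + K / ε ≤ n / ((k : ℝ) + 7 / 2) := by
      rw [le_div_iff₀ (by positivity)]
      linarith
    rw [h2] at hm2
    have h4 : 0 ≤ n / ((k : ℝ) + 7 / 2) := by positivity
    linarith
  have hKe : K ≤ ε * m := by
    have h1 : K / ε ≤ m := by linarith
    rw [div_le_iff₀ hε] at h1
    linarith
  have hm1' : 1 ≤ m := by
    have h1 : (1 : ℝ) ≤ m := by
      have : 0 ≤ K / ε := by positivity
      linarith
    exact_mod_cast h1
  have hcast : (((n - m : ℕ)) : ℝ) = (n : ℝ) - m := by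
    rw [Nat.cast_sub hml.le]
  have hNle : ((k : ℝ) + 2) * m ≤ 3 / 2 * ((n : ℝ) - m) := by
    have h1 : (m : ℝ) * (2 * k + 7) ≤ 3 * n := by
      have h2 : (m : ℝ) * (2 * k + 7) ≤ 3 / (2 * (k : ℝ) + 7) * n * (2 * k + 7) := by gcongr
      have h3 : 3 / (2 * (k : ℝ) + 7) * n * (2 * k + 7) = 3 * n := by field_simp
      linarith
    linarith
  rcases le_or_gt (4 * l + κ) (((n : ℝ) - m) / 2) with hadm | hnadm
  · -- the step
    have hA : Adm k κ n m l := by
      left
      linarith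
    obtain ⟨j, i, hjm, hi0, hi, hle⟩ := hstep n m l hnM hm1' hml hl hA
    have hIH := ih (n - m) (by omega) (by omega) i hi0
    refine hle.trans ((mul_le_mul_of_nonneg_left hIH (Real.rpow_nonneg (by linarith) _)).trans ?_)
    rw [← Real.rpow_add (by linarith)]
    refine Real.rpow_le_rpow_of_exponent_le hP ?_
    have hx8 : 8 * xe k n l ≤ (n : ℝ) - m := by
      unfold xe
      rcases le_total l ((n : ℝ) / (500 * k)) with h | h
      · rw [max_eq_right h]
        have h1 : (n : ℝ) / (500 * k) ≤ n / 1500 := by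
          gcongr
          linarith
        linarith
      · rw [max_eq_left h]
        linarith
    have hcd : (k : ℝ) * cc k * (3 / (2 * k + 7)) = 4 := by
      unfold cc
      field_simp
      ring
    have hE := expA (k := k) (n := n) (N := (n : ℝ) - m) (x := xe k n l) (l := l) (j := j) (i := i)
      (κ := κ) (ε := ε) (K := K) (a := aa k) (c := cc k) hk3 hc.le hca hcd
      (by linarith) (by linarith [(Nat.cast_nonneg m : (0 : ℝ) ≤ m)]) (Nat.cast_nonneg j) hi hκ
      rfl hx8 (by linarith) hn0 hK (by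
        have : (n : ℝ) - (n - m) = m := by ring
        rw [this]
        exact hKe)
    unfold V1
    rw [hcast]
    have hxe : xe k (n - m) i = max i (((n : ℝ) - m) / (500 * k)) := by
      unfold xe
      rw [hcast]
    rw [hxe]
    linarith
  · -- trivial bound
    refine (htriv n l hnM).trans (Real.rpow_le_rpow_of_exponent_le hP ?_)
    have h1 : (n : ℝ) * (1 - 3 / (2 * (k : ℝ) + 7)) ≤ n - m := by linarith
    have h2 : (1 : ℝ) - 3 / (2 * (k : ℝ) + 7) = (2 * k + 4) / (2 * k + 7) := by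
      field_simp
      ring
    rw [h2] at h1
    have h3 : (n : ℝ) * ((2 * k + 4) / (2 * k + 7)) < 8 * l + 2 * κ := by linarith
    have h4 : (k : ℝ) * n < (8 * l + 2 * κ) * (k + 3 / 2) := by
      have h5 : (k : ℝ) * n ≤ (n : ℝ) * ((2 * k + 4) / (2 * k + 7)) * (k + 3 / 2) := by
        have h50 : (k : ℝ) ≤ (2 * k + 4) / (2 * k + 7) * (k + 3 / 2) := by
          rw [div_mul_eq_mul_div, le_div_iff₀ (by positivity)]
          nlinarith
        have h51 := mul_le_mul_of_nonneg_left h50 hn0.le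
        linarith
      exact h5.trans_lt (mul_lt_mul_of_pos_right h3 (by positivity))
    have h6 : l * aa k ≤ GG (aa k) (cc k) n (xe k n l) := by
      unfold GG
      have h7 : l ≤ xe k n l := le_max_left _ _
      have h8 : 0 ≤ max 0 (Real.log ((n : ℝ) / (8 * xe k n l))) := le_max_left _ _
      have h9 : aa k ≤ aa k + cc k * max 0 (Real.log ((n : ℝ) / (8 * xe k n l))) := by
        have := mul_nonneg hc.le h8
        linarith
      have h10 : 0 ≤ aa k := hc.le.trans hca
      exact mul_le_mul h7 h9 h10 hxe0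
    have h7 : (k : ℝ) * (l * aa k) = 8 * k * l + 12 * l := by
      unfold aa
      field_simp
    have h8 : (2 * κ * (k + 3 / 2) + κ) ≤ ε * n := by
      have h9 : (2 * κ * (k + 3 / 2) + κ) / ε ≤ n := by
        have : 0 ≤ ((k : ℝ) + 7 / 2) * (2 + K / ε) := by positivity
        linarith
      rw [div_le_iff₀ hε] at h9
      linarith
    have h9 : (k : ℝ) * (l * aa k) ≤ k * GG (aa k) (cc k) n (xe k n l) :=
      mul_le_mul_of_nonneg_left h6 hk0.le
    unfold V1
    have h10 : 0 ≤ (k : ℝ) * l := by positivity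
    have h11 : 0 ≤ ε * (M : ℝ) := by positivity
    nlinarith

end Pool.Agent.Lib.MP_570bef_ntLM
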