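import Mathlib
import Pool.Agent.Lib.MP_570bef_ntLM.RecA

/-!
# Second recursion: long steps for small levels
-/

set_option autoImplicit false

namespace Pool.Agent.Lib.MP_570bef_ntLM

/-- threshold `8 c0 / 81` -/
noncomputable def s1 : ℝ := 8 / 81 * (1 / 10 ^ 8)

/-- constant of the second potential -/
noncomputable def a2 (k : ℕ) : ℝ := aa k + cc k * Real.log (1 / (8 * s1)) + 66 / 5

/-- second bound -/
noncomputable def V2 (k M n : ℕ) (ε l : ℝ) : ℝ :=
  k * l + k * HH (a2 k) 11 s1 n (xe k n l) + ε * n + ε * M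

theorem s1_pos : 0 < s1 := by unfold s1; norm_num

theorem log_s1_le : Real.log (1 / (8 * s1)) ≤ 187152 / 10000 := by
  have h1 : (1 : ℝ) / (8 * s1) ≤ 2 ^ 27 := by
    unfold s1
    norm_num
  have h2 : Real.log (1 / (8 * s1)) ≤ Real.log (2 ^ 27) :=
    Real.log_le_log (by have := s1_pos; positivity) h1
  rw [Real.log_pow] at h2
  have h3 := Real.log_two_lt_d9
  push_cast at h2
  linarith

theorem log_s1_ge : 18 ≤ Real.log (1 / (8 * s1)) := by
  have h1 : (2 : ℝ) ^ 26 ≤ 1 / (8 * s1) := by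
    unfold s1
    norm_num
  have h2 : Real.log (2 ^ 26) ≤ Real.log (1 / (8 * s1)) := Real.log_le_log (by positivity) h1
  rw [Real.log_pow] at h2
  have h3 := Real.log_two_gt_d9
  push_cast at h2
  linarith

theorem a2_ge (k : ℕ) : 33 ≤ a2 k := by
  have h1 := log_s1_ge
  have h2 : (8 : ℝ) / 3 ≤ cc k := by
    unfold cc
    have : (0 : ℝ) ≤ 28 / (3 * k) := by positivity
    linarith
  have h3 : (8 : ℝ) ≤ aa k := by
    unfold aa
    have : (0 : ℝ) ≤ 12 / k := by positivity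
    linarith
  unfold a2
  nlinarith

/-- the exponent computation for the second recursion -/
theorem expB {k n N x l j i κ ε K ρ a : ℝ} (hk : 3 ≤ k) (ha : 33 ≤ a) (hN : 0 < N)
    (hNn : N ≤ n) (hj : 0 ≤ j) (hi : i ≤ l - j + κ) (hκ : 0 ≤ κ)
    (hx : x = max l (n / (500 * k))) (hn : 0 < n) (hρ : 3 / 2 ≤ ρ) (hρk : 32 * ρ ≤ k)
    (hρx : ρ ^ 4 * (2 * x) = 1 / 10 ^ 8 * n) (hm : ρ / (k + ρ) * n - 1 ≤ n - N)
    (hxs : x + κ ≤ 2 * s1 * N) (hxn : x ≤ n)
    (hK : K = k * κ + k * κ * a + 3 * k) (hε : K ≤ ε * (n - N)) :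
    κ + (k + 1) * j + (l - j - i) + 4 * (l - j) +
      (k * i + k * HH a 11 s1 N (max i (N / (500 * k))) + ε * N) ≤
      k * l + k * HH a 11 s1 n x + ε * n := by
  have hs := s1_pos
  have hk0 : 0 < k := by linarith
  have hρ0 : 0 < ρ := by linarith
  have hx0 : 0 < x := by
    rw [hx]
    exact lt_of_lt_of_le (by positivity) (le_max_right _ _)
  have hlx : l ≤ x := by rw [hx]; exact le_max_left _ _
  have hnx : n / (500 * k) ≤ x := by rw [hx]; exact le_max_right _ _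
  have hNx : N / (500 * k) ≤ x := by
    refine le_trans ?_ hnx
    gcongr
  have hmax0 : 0 < max i (N / (500 * k)) := lt_of_lt_of_le (by positivity) (le_max_right _ _)
  have h1 : HH a 11 s1 N (max i (N / (500 * k))) ≤ HH a 11 s1 N (x + κ) := by
    refine HH_mono (by norm_num) hs hN hmax0 (max_le ?_ ?_) hxs (by linarith)
    · linarith
    · linarith
  have h2 : HH a 11 s1 N (x + κ) ≤ HH a 11 s1 N x + κ * a := HH_add (by norm_num) hs hN hx0 hκ
  have h3 := HH_dec (a := a) (b := 11) (by norm_num) hs hN hNn hx0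
  have h4 : (x / (s1 * n)) ^ (1 / 4 : ℝ) = 3 / 2 / ρ := by
    have h5 : x / (s1 * n) = (3 / 2 / ρ) ^ 4 := by
      have h6 : n = ρ ^ 4 * (2 * x) * 10 ^ 8 := by
        rw [hρx]
        ring
      rw [h6]
      unfold s1
      field_simp
      norm_num
    rw [h5]
    exact root_of_pow (by positivity)
  have h7 : (n - N) / (4 * n) ≥ 1 / 4 * (ρ / (k + ρ) - 1 / n) := by
    have h8 : ρ / (k + ρ) - 1 / n ≤ (n - N) / n := by
      rw [le_div_iff₀ hn, sub_mul, one_div_mul_cancel hn.ne']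
      exact hm
    have h9 : (n - N) / (4 * n) = 1 / 4 * ((n - N) / n) := by
      field_simp
    rw [h9]
    linarith
  have h10 : 4 * x - 3 * k ≤ k * (x * 11 * (x / (s1 * n)) ^ (1 / 4 : ℝ) * ((n - N) / (4 * n))) := by
    rw [h4]
    have h11 : k * (x * 11 * (3 / 2 / ρ) * (1 / 4 * (ρ / (k + ρ) - 1 / n))) ≤
        k * (x * 11 * (3 / 2 / ρ) * ((n - N) / (4 * n))) := by
      have h110 : 0 ≤ k * (x * 11 * (3 / 2 / ρ)) := by positivity
      have h111 := mul_le_mul_of_nonneg_left h7 h110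
      linarith
    refine le_trans ?_ h11
    have h12 : k * (x * 11 * (3 / 2 / ρ) * (1 / 4 * (ρ / (k + ρ) - 1 / n))) =
        33 / 8 * (k / (k + ρ)) * x - 33 / 8 * k * (1 / ρ) * (x / n) := by
      field_simp
      ring
    rw [h12]
    have h13 : 32 / 33 ≤ k / (k + ρ) := by
      rw [div_le_div_iff₀ (by norm_num) (by positivity)]
      linarith
    have h14 : 33 / 8 * (32 / 33) * x ≤ 33 / 8 * (k / (k + ρ)) * x := by gcongr
    have h15 : 1 / ρ ≤ 2 / 3 := by
      rw [div_le_div_iff₀ hρ0 (by norm_num)]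
      linarith
    have h16 : x / n ≤ 1 := by
      rw [div_le_one hn]
      exact hxn
    have h17 : 33 / 8 * k * (1 / ρ) * (x / n) ≤ 33 / 8 * k * (2 / 3) * 1 := by gcongr
    linarith
  have h18 : k * HH a 11 s1 N (max i (N / (500 * k))) ≤ k * (HH a 11 s1 N x + κ * a) :=
    mul_le_mul_of_nonneg_left (h1.trans h2) hk0.le
  have h19 : k * (HH a 11 s1 N x + x * 11 * (x / (s1 * n)) ^ (1 / 4 : ℝ) * ((n - N) / (4 * n))) ≤
      k * HH a 11 s1 n x := mul_le_mul_of_nonneg_left h3 hk0.le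
  have h20 : (k - 1) * i ≤ (k - 1) * (l - j + κ) :=
    mul_le_mul_of_nonneg_left hi (by linarith)
  rw [hK] at hε
  nlinarith

theorem recB (k : ℕ) (hk : 3 ≤ k) {κ ε : ℝ} (hκ : 0 ≤ κ) (hε : 0 < ε) :
    ∃ M0 : ℕ, ∀ M ≥ M0, ∀ P : ℝ, 1 ≤ P → ∀ ν : ℕ → ℝ → ℝ, (∀ n l, 0 ≤ ν n l) →
      (∀ (n : ℕ) (l : ℝ), n ≤ M → ν n l ≤ P ^ ((k : ℝ) * n + κ)) → Step k M κ P ν →
      ∀ n ≤ M, ∀ l : ℝ, 0 ≤ l → xe k n l ≤ 2 * s1 * n → ν n l ≤ P ^ V2 k M n ε l := by
  have hk3 : (3 : ℝ) ≤ k := by exact_mod_cast hk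
  have hk0 : (0 : ℝ) < k := by linarith
  have hs := s1_pos
  have hc := cc_pos k
  have hca := cc_le_aa k
  have ha2 := a2_ge k
  obtain ⟨M1, hrecA⟩ := recA k hk hκ hε
  obtain ⟨K, hK⟩ : ∃ K : ℝ, K = (k : ℝ) * κ + k * κ * a2 k + 3 * k := ⟨_, rfl⟩
  have hK0 : 0 ≤ K := by
    rw [hK]
    have : 0 ≤ a2 k := by linarith
    positivity
  obtain ⟨n1, hn1⟩ : ∃ n1 : ℝ, n1 = 2 * κ / s1 + 1000 * k * κ + 2 * k * (2 + K / ε) :=
    ⟨_, rfl⟩
  have hn10 : 0 < n1 := by rw [hn1]; positivity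
  refine ⟨max M1 ⌈((k : ℝ) * n1 + κ) / ε⌉₊, fun M hM P hP ν hν htriv hstep => ?_⟩
  have hA := hrecA M ((le_max_left _ _).trans hM) P hP ν hν htriv hstep
  have hM' : (k : ℝ) * n1 + κ ≤ ε * M := by
    have := (Nat.le_ceil (((k : ℝ) * n1 + κ) / ε)).trans
      (Nat.cast_le.2 ((le_max_right _ _).trans hM))
    rw [div_le_iff₀ hε] at this
    linarith
  intro n
  induction n using Nat.strong_induction_on with
  | _ n ih =>
  intro hnM l hl hx2
  have hxe0 : 0 ≤ xe k n l := le_trans hl (le_max_left _ _)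
  have hroot : (xe k n l / (s1 * n)) ^ (1 / 4 : ℝ) ≤ 6 / 5 := by
    have h1 : xe k n l / (s1 * n) ≤ 2 := by
      rcases Nat.eq_zero_or_pos n with h | h
      · rw [h]
        simp
      · have hn : (0 : ℝ) < n := by exact_mod_cast h
        rw [div_le_iff₀ (by positivity)]
        linarith
    have h2 : (xe k n l / (s1 * n)) ^ (1 / 4 : ℝ) ≤ ((6 / 5 : ℝ) ^ 4) ^ (1 / 4 : ℝ) :=
      root_mono (by positivity) (h1.trans (by norm_num))
    rw [root_of_pow (by norm_num)] at h2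
    exact h2
  have hG0 : 0 ≤ HH (a2 k) 11 s1 n (xe k n l) := by
    unfold HH
    refine mul_nonneg hxe0 ?_
    linarith
  rcases le_or_gt ((k : ℝ) * n + κ) (ε * M) with hsm | hbig
  · refine (htriv n l hnM).trans (Real.rpow_le_rpow_of_exponent_le hP ?_)
    unfold V2
    have h1 : (0 : ℝ) ≤ ε * n := by positivity
    have h2 : 0 ≤ (k : ℝ) * l := by positivity
    have h3 : 0 ≤ (k : ℝ) * HH (a2 k) 11 s1 n (xe k n l) := by positivity
    linarith
  have hnn1 : n1 < n := by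
    have : (k : ℝ) * n1 < k * n := by linarith
    exact lt_of_mul_lt_mul_left this hk0.le
  have hn0 : (0 : ℝ) < n := hn10.trans hnn1
  have hxpos : 0 < xe k n l := lt_of_lt_of_le (by positivity) (le_max_right _ _)
  rcases le_or_gt (s1 * n) (xe k n l) with hxs | hxs
  · -- first recursion
    refine (hA n hnM l hl).trans (Real.rpow_le_rpow_of_exponent_le hP ?_)
    unfold V1 V2
    have h1 : GG (aa k) (cc k) n (xe k n l) ≤ HH (a2 k) 11 s1 n (xe k n l) := by
      unfold GG HH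
      refine mul_le_mul_of_nonneg_left ?_ hxe0
      have h2 : max 0 (Real.log ((n : ℝ) / (8 * xe k n l))) ≤ Real.log (1 / (8 * s1)) := by
        refine max_le (by linarith [log_s1_ge]) (Real.log_le_log (by positivity) ?_)
        rw [div_le_div_iff₀ (by positivity) (by positivity)]
        linarith
      have h3 := mul_le_mul_of_nonneg_left h2 hc.le
      unfold a2
      linarith
    have h4 := mul_le_mul_of_nonneg_left h1 hk0.le
    linarith
  · -- the long step
    obtain ⟨ρ, hρ⟩ : ∃ ρ : ℝ, ρ = (1 / 10 ^ 8 * n / (2 * xe k n l)) ^ (1 / 4 : ℝ) := ⟨_, rfl⟩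
    have hρ4 : ρ ^ 4 = 1 / 10 ^ 8 * n / (2 * xe k n l) := by
      rw [hρ]
      exact root_pow (by positivity)
    have hρx : ρ ^ 4 * (2 * xe k n l) = 1 / 10 ^ 8 * n := by
      rw [hρ4]
      field_simp
    have hρ32 : 3 / 2 ≤ ρ := by
      have h1 : ((3 / 2 : ℝ) ^ 4) ^ (1 / 4 : ℝ) ≤ ρ := by
        rw [hρ]
        refine root_mono (by norm_num) ?_
        rw [le_div_iff₀ (by positivity)]
        unfold s1 at hxs
        norm_num at hxs ⊢
        linarith
      rwa [root_of_pow (by norm_num)] at h1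
    have hρk : 1000 * ρ ^ 4 ≤ k := by
      have h1 : (n : ℝ) / (500 * k) ≤ xe k n l := le_max_right _ _
      rw [div_le_iff₀ (by positivity)] at h1
      rw [hρ4, mul_div_assoc', div_le_iff₀ (by positivity)]
      nlinarith
    have hρ0 : 0 < ρ := by linarith
    have hρk2 : 32 * ρ ≤ k := by
      have h1 : (1 : ℝ) ≤ ρ ^ 3 := one_le_pow₀ (by linarith)
      have h2 : ρ ≤ ρ ^ 4 := by nlinarith
      linarith
    obtain ⟨m, hm⟩ : ∃ m : ℕ, m = ⌊ρ / ((k : ℝ) + ρ) * n⌋₊ := ⟨_, rfl⟩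
    have hm1 : (m : ℝ) ≤ ρ / ((k : ℝ) + ρ) * n := by rw [hm]; exact Nat.floor_le (by positivity)
    have hm2 : ρ / ((k : ℝ) + ρ) * n < m + 1 := by rw [hm]; exact Nat.lt_floor_add_one _
    have hθ : ρ / ((k : ℝ) + ρ) ≤ 1 / 4 := by
      rw [div_le_div_iff₀ (by positivity) (by norm_num)]
      linarith
    have hθ2 : 3 / 2 / (2 * (k : ℝ)) ≤ ρ / ((k : ℝ) + ρ) := by
      rw [div_le_div_iff₀ (by positivity) (by positivity)]
      nlinarith
    have hmn : (m : ℝ) ≤ n / 4 := by nlinarith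
    have hml : m < n := by
      have : (m : ℝ) < n := by linarith
      exact_mod_cast this
    have hbigm : 1 + K / ε ≤ (m : ℝ) := by
      have h1 : 2 * (k : ℝ) * (2 + K / ε) ≤ n := by
        have h10 : 0 ≤ 2 * κ / s1 := by positivity
        have h11 : 0 ≤ 1000 * (k : ℝ) * κ := by positivity
        linarith
      have h2 : 3 / 2 / (2 * (k : ℝ)) * n ≤ ρ / ((k : ℝ) + ρ) * n := by gcongr
      have h3 : 3 / 2 / (2 * (k : ℝ)) * (2 * (k : ℝ) * (2 + K / ε)) ≤ 3 / 2 / (2 * (k : ℝ)) * n := by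
        gcongr
      have h4 : 3 / 2 / (2 * (k : ℝ)) * (2 * (k : ℝ) * (2 + K / ε)) = 3 / 2 * (2 + K / ε) := by
        field_simp
      rw [h4] at h3
      have h5 : 0 ≤ K / ε := by positivity
      linarith
    have hKe : K ≤ ε * m := by
      have h1 : K / ε ≤ m := by linarith
      rw [div_le_iff₀ hε] at h1
      linarith
    have hm1' : 1 ≤ m := by
      have h1 : (1 : ℝ) ≤ m := by
        have : 0 ≤ K / ε := by positivity
        linarith
      exact_mod_cast h1
    have hcast : (((n - m : ℕ)) : ℝ) = (n : ℝ) - m := by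
      rw [Nat.cast_sub hml.le]
    have hkm : (k : ℝ) * m ≤ ρ * ((n : ℝ) - m) := by
      have h1 : (m : ℝ) * (k + ρ) ≤ ρ * n := by
        have h2 : (m : ℝ) * (k + ρ) ≤ ρ / ((k : ℝ) + ρ) * n * (k + ρ) := by gcongr
        have h3 : ρ / ((k : ℝ) + ρ) * n * (k + ρ) = ρ * n := by field_simp
        linarith
      linarith
    have hlx : l ≤ xe k n l := le_max_left _ _
    have hnx : (n : ℝ) / (500 * k) ≤ xe k n l := le_max_right _ _
    have hxκ : 2 * κ ≤ xe k n l := by
      refine le_trans ?_ hnx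
      rw [le_div_iff₀ (by positivity)]
      have h10 : 0 ≤ 2 * κ / s1 := by positivity
      have h11 : 0 ≤ 2 * (k : ℝ) * (2 + K / ε) := by positivity
      linarith
    have hAdm : Adm k κ n m l := by
      right
      refine ⟨ρ, hρ32, hρk, hkm, ?_⟩
      have h1 : (l + κ) ≤ 3 / 2 * xe k n l := by linarith
      have h2 : (l + κ) * ρ ^ 4 ≤ 3 / 2 * xe k n l * ρ ^ 4 := by gcongr
      have h3 : 3 / 2 * xe k n l * ρ ^ 4 = 3 / 4 * (ρ ^ 4 * (2 * xe k n l)) := by ring
      rw [h3, hρx] at h2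
      linarith
    obtain ⟨j, i, hjm, hi0, hi, hle⟩ := hstep n m l hnM hm1' hml hl hAdm
    have hxN : xe k n l + κ ≤ 2 * s1 * ((n : ℝ) - m) := by
      have h1 : 2 * κ / s1 ≤ n := by
        have h11 : 0 ≤ 1000 * (k : ℝ) * κ := by positivity
        have h12 : 0 ≤ 2 * (k : ℝ) * (2 + K / ε) := by positivity
        linarith
      rw [div_le_iff₀ hs] at h1
      have h2 : 2 * s1 * (3 / 4 * n) ≤ 2 * s1 * ((n : ℝ) - m) := by
        gcongr
        linarith
      linarith
    have hNx : ((n - m : ℕ) : ℝ) / (500 * k) ≤ xe k n l := by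
      rw [hcast]
      refine le_trans ?_ hnx
      gcongr
      linarith [(Nat.cast_nonneg m : (0 : ℝ) ≤ m)]
    have hIH := ih (n - m) (by omega) (by omega) i hi0 (by
      unfold xe
      refine max_le ?_ ?_
      · rw [hcast]
        have : (0 : ℝ) ≤ j := Nat.cast_nonneg j
        linarith
      · rw [hcast] at hNx ⊢
        linarith)
    refine hle.trans ((mul_le_mul_of_nonneg_left hIH (Real.rpow_nonneg (by linarith) _)).trans ?_)
    rw [← Real.rpow_add (by linarith)]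
    refine Real.rpow_le_rpow_of_exponent_le hP ?_
    have hs12 : s1 ≤ 1 := by unfold s1; norm_num
    have hE := expB (k := k) (n := n) (N := (n : ℝ) - m) (x := xe k n l) (l := l) (j := j) (i := i)
      (κ := κ) (ε := ε) (K := K) (ρ := ρ) (a := a2 k) hk3 ha2
      (by linarith) (by linarith [(Nat.cast_nonneg m : (0 : ℝ) ≤ m)]) (Nat.cast_nonneg j) hi hκ
      rfl hn0 hρ32 hρk2 hρx (by linarith) hxN (by nlinarith) hK (by
        have : (n : ℝ) - (n - m) = m := by ring
        rw [this]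
        exact hKe)
    unfold V2
    rw [hcast]
    have hxe : xe k (n - m) i = max i (((n : ℝ) - m) / (500 * k)) := by
      unfold xe
      rw [hcast]
    rw [hxe]
    linarith

end Pool.Agent.Lib.MP_570bef_ntLM
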