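import Mathlib
import Pool.Agent.Lib.MP_570bef_ntLM.RecB

/-!
# The recursion: final bound
-/

set_option autoImplicit false

namespace Pool.Agent.Lib.MP_570bef_ntLM

/-- the constant for `x ≤ 2 s1 n` -/
theorem const_b {k : ℕ} (hk : (1000000 : ℝ) / 2 ≤ k) : 1 + a2 k ≤ 75 := by
  have hk0 : (0 : ℝ) < k := by linarith
  have h1 := log_s1_le
  have h2 : (1 : ℝ) / k ≤ 2 / 1000000 := by
    rw [div_le_div_iff₀ hk0 (by norm_num)]
    linarith
  have h3 : cc k = 8 / 3 + 28 / 3 * (1 / k) := by unfold cc; field_simp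
  have h4 : aa k = 8 + 12 * (1 / k) := by unfold aa; field_simp
  have h5 : 0 ≤ (1 : ℝ) / k := by positivity
  have h6 := log_s1_ge
  have h7 : cc k * Real.log (1 / (8 * s1)) ≤ (8 / 3 + 28 / 3 * (2 / 1000000)) * (187152 / 10000) := by
    rw [h3]
    gcongr
  unfold a2
  rw [h4]
  linarith

/-- the constant for `x ≥ 2 s1 n` -/
theorem const_a {k n : ℕ} (hk : 3 ≤ k) {x : ℝ} (hn : 0 < n) (hx : (n : ℝ) / (500 * k) ≤ x)
    (hx2 : 2 * s1 * n ≤ x) :
    1 + (aa k + cc k * max 0 (Real.log ((n : ℝ) / (8 * x)))) ≤ 75 := by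
  have hk3 : (3 : ℝ) ≤ k := by exact_mod_cast hk
  have hk0 : (0 : ℝ) < k := by linarith
  have hn0 : (0 : ℝ) < n := by exact_mod_cast hn
  have hs := s1_pos
  have hx0 : 0 < x := lt_of_lt_of_le (by positivity) hx
  have hc := cc_pos k
  have h3 : cc k = 8 / 3 + 28 / 3 * (1 / k) := by unfold cc; field_simp
  have h4 : aa k = 8 + 12 * (1 / k) := by unfold aa; field_simp
  have h5 : 0 ≤ (1 : ℝ) / k := by positivity
  have h6 : (1 : ℝ) / k ≤ 1 / 3 := by
    rw [div_le_div_iff₀ hk0 (by norm_num)]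
    linarith
  rcases le_total (k : ℝ) 100 with h | h
  · have h7 : max 0 (Real.log ((n : ℝ) / (8 * x))) ≤ 902 / 100 := by
      refine max_le (by norm_num) ?_
      have h8 : (n : ℝ) / (8 * x) ≤ 2 ^ 13 := by
        rw [div_le_iff₀ (by positivity)] at hx ⊢
        nlinarith
      have h9 : Real.log ((n : ℝ) / (8 * x)) ≤ Real.log (2 ^ 13) :=
        Real.log_le_log (by positivity) h8
      rw [Real.log_pow] at h9
      have h10 := Real.log_two_lt_d9
      push_cast at h9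
      linarith
    have h8 : cc k * max 0 (Real.log ((n : ℝ) / (8 * x))) ≤ (8 / 3 + 28 / 3 * (1 / 3)) * (902 / 100) := by
      rw [h3]
      have : 0 ≤ max 0 (Real.log ((n : ℝ) / (8 * x))) := le_max_left _ _
      gcongr
    rw [h4]
    linarith
  · have h7 : max 0 (Real.log ((n : ℝ) / (8 * x))) ≤ 187152 / 10000 := by
      refine max_le (by norm_num) ?_
      have h8 : (n : ℝ) / (8 * x) ≤ 1 / (8 * s1) := by
        rw [div_le_div_iff₀ (by positivity) (by positivity)]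
        nlinarith
      exact (Real.log_le_log (by positivity) h8).trans log_s1_le
    have h9 : (1 : ℝ) / k ≤ 1 / 100 := by
      rw [div_le_div_iff₀ hk0 (by norm_num)]
      linarith
    have h8 : cc k * max 0 (Real.log ((n : ℝ) / (8 * x))) ≤
        (8 / 3 + 28 / 3 * (1 / 100)) * (187152 / 10000) := by
      rw [h3]
      have : 0 ≤ max 0 (Real.log ((n : ℝ) / (8 * x))) := le_max_left _ _
      gcongr
    rw [h4]
    linarith

/-- THEOREM M: bound for the number of large values from the step inequality -/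
theorem rec_main (k : ℕ) (hk : 3 ≤ k) (κ ε : ℝ) (hκ : 0 ≤ κ) (hε : 0 < ε) :
    ∃ M0 : ℕ, ∀ M ≥ M0, ∀ P : ℝ, 1 ≤ P → ∀ ν : ℕ → ℝ → ℝ, (∀ n l, 0 ≤ ν n l) →
      (∀ (n : ℕ) (l : ℝ), n ≤ M → ν n l ≤ P ^ ((k : ℝ) * n + κ)) → Step k M κ P ν →
      ∀ n ≤ M, ∀ l : ℝ, 0 ≤ l →
        ν n l ≤ P ^ (75 * (k : ℝ) * max l ((n : ℝ) / (500 * k)) + ε * M) := by
  have hk3 : (3 : ℝ) ≤ k := by exact_mod_cast hk
  have hk0 : (0 : ℝ) < k := by linarith
  have hε2 : 0 < ε / 2 := by linarith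
  have hs := s1_pos
  obtain ⟨M1, hA⟩ := recA k hk hκ hε2
  obtain ⟨M2, hB⟩ := recB k hk hκ hε2
  refine ⟨max (max M1 M2) ⌈κ / ε⌉₊, fun M hM P hP ν hν htriv hstep n hnM l hl => ?_⟩
  have hA' := hA M (((le_max_left _ _).trans (le_max_left _ _)).trans hM) P hP ν hν htriv hstep
  have hB' := hB M (((le_max_right _ _).trans (le_max_left _ _)).trans hM) P hP ν hν htriv hstep
  have hκM : κ ≤ ε * M := by
    have := (Nat.le_ceil (κ / ε)).trans (Nat.cast_le.2 ((le_max_right _ _).trans hM))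
    rw [div_le_iff₀ hε] at this
    linarith
  have hxl : l ≤ max l ((n : ℝ) / (500 * k)) := le_max_left _ _
  have hx0 : 0 ≤ max l ((n : ℝ) / (500 * k)) := hl.trans hxl
  rcases Nat.eq_zero_or_pos n with hn | hn
  · refine (htriv n l hnM).trans (Real.rpow_le_rpow_of_exponent_le hP ?_)
    rw [hn] at hx0 ⊢
    have : 0 ≤ 75 * (k : ℝ) * max l (((0 : ℕ) : ℝ) / (500 * k)) := by positivity
    push_cast at this ⊢
    linarith
  have hn0 : (0 : ℝ) < n := by exact_mod_cast hn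
  have hnM' : (n : ℝ) ≤ M := by exact_mod_cast hnM
  have hεn : ε / 2 * n ≤ ε / 2 * M := by gcongr
  have hkl : (k : ℝ) * l ≤ k * max l ((n : ℝ) / (500 * k)) := by gcongr
  rcases le_total (xe k n l) (2 * s1 * n) with h | h
  · refine (hB' n hnM l hl h).trans (Real.rpow_le_rpow_of_exponent_le hP ?_)
    have hkbig : (1000000 : ℝ) / 2 ≤ k := by
      have h1 : (n : ℝ) / (500 * k) ≤ 2 * s1 * n := (le_max_right _ _).trans h
      rw [div_le_iff₀ (by positivity)] at h1
      have h2 : (1 : ℝ) ≤ 2 * s1 * (500 * k) := by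
        have h3 : (n : ℝ) * 1 ≤ n * (2 * s1 * (500 * k)) := by linarith
        exact le_of_mul_le_mul_left h3 hn0
      unfold s1 at h2
      norm_num at h2
      linarith
    have hc := const_b hkbig
    unfold V2 HH
    have h1 : 0 ≤ (xe k n l / (s1 * n)) ^ (1 / 4 : ℝ) := by
      unfold xe
      positivity
    have h2 : xe k n l * (a2 k - 11 * (xe k n l / (s1 * n)) ^ (1 / 4 : ℝ)) ≤ xe k n l * a2 k := by
      refine mul_le_mul_of_nonneg_left ?_ hx0
      linarith
    have h3 : (k : ℝ) * (xe k n l * (a2 k - 11 * (xe k n l / (s1 * n)) ^ (1 / 4 : ℝ))) ≤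
        k * (xe k n l * a2 k) := mul_le_mul_of_nonneg_left h2 hk0.le
    have h4 : (k : ℝ) * xe k n l * (1 + a2 k) ≤ k * xe k n l * 75 :=
      mul_le_mul_of_nonneg_left hc (mul_nonneg hk0.le hx0)
    have h5 : xe k n l = max l ((n : ℝ) / (500 * k)) := rfl
    rw [← h5] at hkl ⊢
    linarith
  · refine (hA' n hnM l hl).trans (Real.rpow_le_rpow_of_exponent_le hP ?_)
    have hc := const_a hk hn (x := xe k n l) (le_max_right _ _) h
    unfold V1 GG
    have h4 : (k : ℝ) * xe k n l * (1 + (aa k + cc k * max 0 (Real.log ((n : ℝ) / (8 * xe k n l))))) ≤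
        k * xe k n l * 75 := mul_le_mul_of_nonneg_left hc (mul_nonneg hk0.le hx0)
    have h5 : xe k n l = max l ((n : ℝ) / (500 * k)) := rfl
    rw [← h5] at hkl ⊢
    linarith

end Pool.Agent.Lib.MP_570bef_ntLM
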